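import Pool.Agent.L0.W4.Claims2

/-!
# A field with `w`-invariant greater than three

For a real field `k` in which some sum of squares `c` is not a sum of two squares (for example
`k = ℚ`, `c = 3`), the form
`⟨(u+1)(u-2), c(1+x²)(u-1)(u-2), -3(1+z²)u(u-1), c u(u+1)⟩`
over `k(u)(x)(z)` is minimal weakly isotropic, so that `w(k(u)(x)(z)) ≥ 4`.
-/

set_option autoImplicit false

open Polynomial

universe u

namespace Pool.Agent.Results.MP_2416ca_nt.WInvariantAboveThree

open Pool.Agent.L0.W4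

section defs

variable {K : Type u} [Field K]

/-- The quadratic form `φ` on `K^d` is regular: its associated bilinear form
`φ(x + y) - φ(x) - φ(y)` is non-degenerate. -/
def Regular {d : ℕ} (φ : QuadraticForm K (Fin d → K)) : Prop :=
  ∀ x, (∀ y, QuadraticMap.polar φ x y = 0) → x = 0

/-- `n × φ`, the orthogonal sum of `n` copies of `φ`. -/
def copies (n : ℕ) {d : ℕ} (φ : QuadraticForm K (Fin d → K)) :
    QuadraticForm K (Fin n → Fin d → K) :=
  QuadraticMap.pi fun _ => φ

/-- `φ` is weakly isotropic: `n × φ` has a nonzero zero for some `n`. -/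
def WeaklyIsotropic {d : ℕ} (φ : QuadraticForm K (Fin d → K)) : Prop :=
  ∃ n : ℕ, ∃ x : Fin n → Fin d → K, x ≠ 0 ∧ copies n φ x = 0

/-- `ψ` is a subform of `φ`: `φ` is isometric to `ψ ⊥ χ` for some form `χ`. -/
def IsSubform {e d : ℕ} (ψ : QuadraticForm K (Fin e → K)) (φ : QuadraticForm K (Fin d → K)) :
    Prop :=
  ∃ (f : ℕ) (χ : QuadraticForm K (Fin f → K)), φ.Equivalent (ψ.prod χ)

/-- `φ` is minimal weakly isotropic: it is weakly isotropic and none of its proper subforms is. -/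
def MinimalWeaklyIsotropic {d : ℕ} (φ : QuadraticForm K (Fin d → K)) : Prop :=
  WeaklyIsotropic φ ∧
    ∀ (e : ℕ) (ψ : QuadraticForm K (Fin e → K)), IsSubform ψ φ → e < d → ¬ WeaklyIsotropic ψ

variable (K) in
/-- The `w`-invariant of `K`: the supremum in `ℕ ∪ {∞}` of the dimensions of the (regular) minimal
weakly isotropic forms over `K`. -/
noncomputable def wInv : ℕ∞ :=
  sSup {d : ℕ∞ | ∃ (m : ℕ) (φ : QuadraticForm K (Fin m → K)),
    d = m ∧ Regular φ ∧ MinimalWeaklyIsotropic φ}

end defs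

section lemmas

variable {K : Type u} [Field K]

theorem copies_apply (n : ℕ) {d : ℕ} (φ : QuadraticForm K (Fin d → K)) (x : Fin n → Fin d → K) :
    copies n φ x = ∑ k, φ (x k) := by
  rw [copies, QuadraticMap.pi_apply]

/-- `t` is represented by some multiple of `φ`, at a nonzero vector -/
def Rep {d : ℕ} (φ : QuadraticForm K (Fin d → K)) (t : K) : Prop :=
  ∃ n : ℕ, ∃ x : Fin n → Fin d → K, x ≠ 0 ∧ ∑ k, φ (x k) = t

theorem Rep.add {d : ℕ} {φ : QuadraticForm K (Fin d → K)} {s t : K} (hs : Rep φ s)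
    (ht : Rep φ t) : Rep φ (s + t) := by
  obtain ⟨m, x, hx, rfl⟩ := hs
  obtain ⟨n, y, -, rfl⟩ := ht
  refine ⟨m + n, Fin.append x y, ?_, ?_⟩
  · intro h
    apply hx
    funext i
    have := congrFun h (Fin.castAdd n i)
    simpa using this
  · rw [Fin.sum_univ_add]
    simp

theorem Rep.single {d : ℕ} {φ : QuadraticForm K (Fin d → K)} {x : Fin d → K} (hx : x ≠ 0) :
    Rep φ (φ x) :=
  ⟨1, fun _ => x, fun h => hx (congrFun h 0), by simp⟩

theorem Rep.mul {d : ℕ} {φ : QuadraticForm K (Fin d → K)} {x : Fin d → K} (hx : x ≠ 0) {s : K}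
    (hs : IsSumSq s) : s = 0 ∨ Rep φ (s * φ x) := by
  induction hs with
  | zero => exact Or.inl rfl
  | sq_add a hs ih =>
    by_cases ha : a = 0
    · rw [ha, mul_zero, zero_add]
      exact ih
    · right
      have h1 : Rep φ (a * a * φ x) := by
        have := Rep.single (φ := φ) (x := a • x) (smul_ne_zero ha hx)
        rwa [QuadraticMap.map_smul, smul_eq_mul] at this
      rcases ih with h | h
      · rw [h, add_zero]
        exact h1
      · rw [add_mul]
        exact h1.add h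

/-- `−1` is not a sum of squares -/
theorem rl_of_not (h : ¬ IsSumSq (-1 : K)) : Rl K := by
  intro a b ha hb hab
  by_contra ha0
  apply h
  have hb' : b = -a := by linear_combination hab
  have : (-1 : K) = b * a * (a⁻¹ * a⁻¹) := by
    rw [hb']
    field_simp
  rw [this]
  exact (hb.mul ha).mul (IsSumSq.mul_self _)

theorem charZero_of_rl (h : Rl K) : CharZero K := by
  refine charZero_of_inj_zero fun n hn => ?_
  by_contra hn0
  obtain ⟨m, rfl⟩ := Nat.exists_eq_succ_of_ne_zero hn0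
  have := h 1 m IsSumSq.one (IsSumSq.natCast m) (by
    push_cast at hn
    linear_combination hn)
  exact one_ne_zero this

end lemmas

section form

theorem sumSq_map {A B : Type*} [Field A] [Semiring B] (f : A →+* B) {s : A} (hs : IsSumSq s) :
    IsSumSq (f s) := by
  induction hs with
  | zero => rw [map_zero]; exact IsSumSq.zero
  | sq_add a hs ih =>
    rw [map_add, map_mul]
    exact IsSumSq.sq_add _ ih

variable {k K : Type u} [Field k] [Field K]

/-- the coefficients of the form -/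
noncomputable def cf (f : k[X] →+* K) (β : Fin 4 → K) (c : k) (i : Fin 4) : K :=
  f (Gp c i) * (1 ^ 2 + β i ^ 2)

/-- the form -/
noncomputable def theForm (f : k[X] →+* K) (β : Fin 4 → K) (c : k) :
    QuadraticForm K (Fin 4 → K) :=
  QuadraticMap.weightedSumSquares K (cf f β c)

variable (f : k[X] →+* K) (hf : Function.Injective f) (β : Fin 4 → K) (c : k)

theorem theForm_apply (v : Fin 4 → K) : theForm f β c v = ∑ i, cf f β c i * v i ^ 2 := by
  rw [theForm, QuadraticMap.weightedSumSquares_apply]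
  exact Finset.sum_congr rfl fun i _ => by rw [smul_eq_mul, sq]

variable {β}

theorem sg_ne (hRK : Rl K) (i : Fin 4) : (1 ^ 2 + β i ^ 2 : K) ≠ 0 := by
  intro h
  have := hRK (1 ^ 2) (β i ^ 2) (by rw [sq]; exact IsSumSq.mul_self _)
    (by rw [sq]; exact IsSumSq.mul_self _) h
  rw [one_pow] at this
  exact one_ne_zero this

theorem Gp_ne [CharZero k] {c : k} (hc0 : c ≠ 0) (i : Fin 4) : Gp c i ≠ 0 := by
  have h1 : (X : k[X]) ≠ 0 := X_ne_zero
  have h2 : (X - 1 : k[X]) ≠ 0 := X_sub_C_ne_zero 1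
  have h3 : (X - 2 : k[X]) ≠ 0 := X_sub_C_ne_zero 2
  have h4 : (X + 1 : k[X]) ≠ 0 := by
    have := X_sub_C_ne_zero (-1 : k)
    rwa [map_neg, map_one, sub_neg_eq_add] at this
  have h5 : (3 : k[X]) ≠ 0 := by
    have : (3 : k[X]) = C 3 := (map_ofNat C 3).symm
    rw [this, ne_eq, C_eq_zero]
    norm_num
  have h6 : (C c : k[X]) ≠ 0 := by rwa [ne_eq, C_eq_zero]
  fin_cases i
  · exact mul_ne_zero h4 h3
  · exact mul_ne_zero h6 (mul_ne_zero h2 h3)
  · exact neg_ne_zero.2 (mul_ne_zero h5 (mul_ne_zero h1 h2))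
  · exact mul_ne_zero h6 (mul_ne_zero h1 h4)

include hf in
theorem cf_ne [CharZero k] (hRK : Rl K) {c : k} (hc0 : c ≠ 0) (i : Fin 4) : cf f β c i ≠ 0 := by
  refine mul_ne_zero ?_ (sg_ne hRK i)
  rw [ne_eq, map_eq_zero_iff _ hf]
  exact Gp_ne hc0 i

include hf in
theorem regular_theForm [CharZero k] (hRK : Rl K) {c : k} (hc0 : c ≠ 0) :
    Regular (theForm f β c) := by
  classical
  have hch := charZero_of_rl hRK
  intro x hx
  funext i
  have h := hx (Pi.single i 1)
  rw [QuadraticMap.polar, theForm_apply, theForm_apply, theForm_apply, ← Finset.sum_sub_distrib,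
    ← Finset.sum_sub_distrib, Finset.sum_eq_single i] at h
  · simp only [Pi.add_apply, Pi.single_eq_same] at h
    have h1 : cf f β c i * (2 * x i) = 0 := by linear_combination h
    have h2 := (mul_eq_zero.1 h1).resolve_left (cf_ne f hf hRK hc0 i)
    exact (mul_eq_zero.1 h2).resolve_left two_ne_zero
  · intro j _ hj
    simp [hj]
  · simp

theorem theForm_single (c : k) (i : Fin 4) : theForm f β c (Pi.single i 1) = cf f β c i := by
  classical
  rw [theForm_apply, Finset.sum_eq_single i]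
  · simp
  · intro j _ hj
    simp [hj]
  · simp

include hf in
theorem weaklyIsotropic_theForm (hRK : Rl K) {c : k} (hcs : IsSumSq c)
    (hc0 : c ≠ 0) : WeaklyIsotropic (theForm f β c) := by
  classical
  -- the sum-of-squares multipliers
  let γ : Fin 4 → K := ![1, f (C c), 1, f (C c)]
  have hfc : f (C c) ≠ 0 := by
    rw [ne_eq, map_eq_zero_iff _ hf, C_eq_zero]
    exact hc0
  have hγs : ∀ i, IsSumSq (γ i) := by
    intro i
    have h1 : IsSumSq (f (C c)) := sumSq_map (f.comp C) hcs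
    fin_cases i
    · exact IsSumSq.one
    · exact h1
    · exact IsSumSq.one
    · exact h1
  have hγ0 : ∀ i, γ i ≠ 0 := by
    intro i
    fin_cases i
    · exact one_ne_zero
    · exact hfc
    · exact one_ne_zero
    · exact hfc
  have hs : ∀ i, IsSumSq ((γ i * (1 ^ 2 + β i ^ 2)) * ((γ i * (1 ^ 2 + β i ^ 2))⁻¹ *
      (γ i * (1 ^ 2 + β i ^ 2))⁻¹)) := by
    intro i
    refine IsSumSq.mul (IsSumSq.mul (hγs i) ?_) (IsSumSq.mul_self _)
    rw [sq, sq]
    exact (IsSumSq.mul_self _).add (IsSumSq.mul_self _)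
  have hrep : ∀ i, Rep (theForm f β c) (f (Gp c i) / γ i) := by
    intro i
    have hne : γ i * (1 ^ 2 + β i ^ 2) ≠ 0 := mul_ne_zero (hγ0 i) (sg_ne hRK i)
    have hx : (Pi.single i 1 : Fin 4 → K) ≠ 0 := by
      intro h
      have := congrFun h i
      simp at this
    have h1 := (Rep.mul (φ := theForm f β c) hx (hs i)).resolve_left (by
      rw [← mul_assoc, mul_inv_cancel₀ hne, one_mul]
      exact inv_ne_zero hne)
    rw [theForm_single] at h1
    have h2 : γ i * (1 ^ 2 + β i ^ 2) * ((γ i * (1 ^ 2 + β i ^ 2))⁻¹ *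
        (γ i * (1 ^ 2 + β i ^ 2))⁻¹) * cf f β c i = f (Gp c i) / γ i := by
      rw [cf]
      have h3 := hγ0 i
      have h4 := sg_ne (β := β) hRK i
      generalize (1 ^ 2 + β i ^ 2 : K) = s at h4
      field_simp
    rwa [h2] at h1
  have h4 := (((hrep 0).add (hrep 1)).add (hrep 2)).add (hrep 3)
  have hsum : f (Gp c 0) / γ 0 + f (Gp c 1) / γ 1 + f (Gp c 2) / γ 2 + f (Gp c 3) / γ 3 = 0 := by
    have e0 : f (Gp c 0) = f ((X + 1) * (X - 2)) := rfl
    have e1 : f (Gp c 1) = f (C c * ((X - 1) * (X - 2))) := rfl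
    have e2 : f (Gp c 2) = f (-(3 * (X * (X - 1)))) := rfl
    have e3 : f (Gp c 3) = f (C c * (X * (X + 1))) := rfl
    have g0 : γ 0 = 1 := rfl
    have g1 : γ 1 = f (C c) := rfl
    have g2 : γ 2 = 1 := rfl
    have g3 : γ 3 = f (C c) := rfl
    rw [e0, e1, e2, e3, g0, g1, g2, g3, map_mul _ (C c), map_mul _ (C c),
      mul_div_cancel_left₀ _ hfc, mul_div_cancel_left₀ _ hfc, div_one, div_one, ← map_add,
      ← map_add, ← map_add, map_eq_zero_iff _ hf]
    ring
  rw [hsum] at h4
  obtain ⟨n, x, hx, h5⟩ := h4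
  exact ⟨n, x, hx, by rw [copies_apply, h5]⟩

include hf in
/-- if the coordinates of weak zeros are linearly independent then the form is minimal -/
theorem minimal_theForm (hRK : Rl K) {c : k} (hcs : IsSumSq c) (hc0 : c ≠ 0)
    (hind : ∀ (n : ℕ) (V : Fin 4 → Fin n → K), (∃ i j, V i j ≠ 0) →
      ∑ i, f (Gp c i) * (1 ^ 2 + β i ^ 2) * ∑ j, V i j ^ 2 = 0 →
      ∀ p : Fin 4 → K, (∃ i, p i ≠ 0) → (∀ j, ∑ i, p i * V i j = 0) → False) :
    MinimalWeaklyIsotropic (theForm f β c) := by
  classical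
  refine ⟨weaklyIsotropic_theForm f hf hRK hcs hc0, ?_⟩
  rintro e ψ ⟨l, χ, ⟨i⟩⟩ hed ⟨n, x, hx, hx0⟩
  rw [copies_apply] at hx0
  let T : (Fin e → K) →ₗ[K] (Fin 4 → K) :=
    i.symm.toLinearEquiv.toLinearMap ∘ₗ LinearMap.inl K (Fin e → K) (Fin l → K)
  have hT : ∀ v, theForm f β c (T v) = ψ v := by
    intro v
    have h1 : theForm f β c (i.symm (v, 0)) = (ψ.prod χ) (v, 0) := i.symm.map_app _
    have h2 : T v = i.symm (v, 0) := rfl
    rw [h2, h1, QuadraticMap.prod_apply]
    simp
  have hTinj : Function.Injective T := by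
    intro a b hab
    have h1 : i.symm (a, 0) = i.symm (b, 0) := hab
    have h2 := i.symm.toLinearEquiv.injective h1
    exact congrArg Prod.fst h2
  have hns : LinearMap.range T < ⊤ := by
    rw [lt_top_iff_ne_top]
    intro h
    have h1 : Function.Surjective T := LinearMap.range_eq_top.1 h
    have h2 := LinearMap.finrank_le_finrank_of_surjective h1
    rw [Module.finrank_fin_fun, Module.finrank_fin_fun] at h2
    omega
  obtain ⟨g, hg0, hg⟩ := Submodule.exists_le_ker_of_lt_top (LinearMap.range T) hns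
  have hgsum : ∀ v : Fin 4 → K, g v = ∑ i, g (Pi.single i 1) * v i := by
    intro v
    conv_lhs => rw [LinearMap.pi_apply_eq_sum_univ g v]
    refine Finset.sum_congr rfl fun i _ => ?_
    rw [smul_eq_mul, mul_comm]
    congr 2
    funext j
    rw [Pi.single_apply]
    simp [eq_comm]
  refine hind n (fun i j => T (x j) i) ?_ ?_ (fun i => g (Pi.single i 1)) ?_ ?_
  · by_contra hcon
    push Not at hcon
    apply hx
    funext j
    apply hTinj
    rw [Pi.zero_apply, map_zero]
    exact funext fun i => hcon i j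
  · have h1 : ∑ j, theForm f β c (T (x j)) = 0 := by
      rw [← hx0]
      exact Finset.sum_congr rfl fun j _ => hT _
    rw [← h1]
    simp only [theForm_apply]
    rw [Finset.sum_comm]
    refine Finset.sum_congr rfl fun i _ => ?_
    rw [Finset.mul_sum]
    rfl
  · by_contra hcon
    push Not at hcon
    apply hg0
    refine LinearMap.ext fun v => ?_
    rw [hgsum]
    simp [hcon]
  · intro j
    have h1 := hgsum (T (x j))
    rw [hg (LinearMap.mem_range_self T (x j))] at h1
    exact h1.symm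

end form

/-- the embedding of `k[u]` -/
noncomputable def em (k : Type u) [Field k] : k[X] →+* RatFunc (RatFunc (RatFunc k)) :=
  ((bse (RatFunc (RatFunc k)) (RatFunc (RatFunc (RatFunc k)))).comp
    (RatFunc.C : RatFunc k →+* RatFunc (RatFunc k))).comp (algebraMap k[X] (RatFunc k))

theorem em_inj (k : Type u) [Field k] : Function.Injective (em k) :=
  ((bse (RatFunc (RatFunc k)) (RatFunc (RatFunc (RatFunc k)))).comp
    (RatFunc.C : RatFunc k →+* RatFunc (RatFunc k))).injective.comp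
    (IsFractionRing.injective k[X] (RatFunc k))

/-- the second entries -/
noncomputable def bb (k : Type u) [Field k] : Fin 4 → RatFunc (RatFunc (RatFunc k)) :=
  ![0, bse (RatFunc (RatFunc k)) (RatFunc (RatFunc (RatFunc k))) RatFunc.X,
    pol (RatFunc (RatFunc k)) (RatFunc (RatFunc (RatFunc k))) X, 0]

theorem main (k : Type u) [Field k] (hk : ¬ IsSumSq (-1 : k)) (c : k) (hcs : IsSumSq c)
    (hc : ∀ a b : k, c ≠ a ^ 2 + b ^ 2) : 3 < wInv (RatFunc (RatFunc (RatFunc k))) := by
  have hR := rl_of_not hk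
  have := charZero_of_rl hR
  have hA := ani_of_not_two hR hc
  have hc0 : c ≠ 0 := fun h => hc 0 0 (by rw [h]; simp)
  have := charZero_ratFunc k
  have := charZero_ratFunc (RatFunc k)
  have hR3 : Rl (RatFunc (RatFunc (RatFunc k))) := hR.ratFunc.ratFunc.ratFunc
  have h1 : ((4 : ℕ) : ℕ∞) ≤ wInv (RatFunc (RatFunc (RatFunc k))) := by
    refine le_sSup ⟨4, theForm (em k) (bb k) c, rfl, regular_theForm (em k) (em_inj k) hR3 hc0,
      minimal_theForm (em k) (em_inj k) hR3 hcs hc0 ?_⟩
    intro n V hV heq p hp hrel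
    exact claim3 (E := RatFunc (RatFunc (RatFunc k)))
      (by rw [Module.finrank_self]; exact odd_one) hR hcs hc0 hA
      (fun _ => 1) (bb k) ⟨rfl, rfl⟩ ⟨rfl, rfl⟩ ⟨rfl, rfl⟩ ⟨rfl, rfl⟩ V hV heq p hp hrel
  refine lt_of_lt_of_le ?_ h1
  norm_num

theorem nat_three (x y z : ℕ) (hz : z ≠ 0) : 3 * z ^ 2 ≠ x ^ 2 + y ^ 2 := by
  intro h
  have h1 := Nat.eq_sq_add_sq_iff.1 ⟨x, y, h⟩ 3 (by
    rw [Nat.mem_primeFactors]
    exact ⟨Nat.prime_three, dvd_mul_right _ _, by positivity⟩) (by norm_num)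
  have : Fact (Nat.Prime 3) := ⟨Nat.prime_three⟩
  rw [padicValNat.mul (by norm_num) (by positivity), padicValNat.pow, padicValNat_self] at h1
  rcases h1 with ⟨r, hr⟩
  omega

theorem rat_three (a b : ℚ) : (3 : ℚ) ≠ a ^ 2 + b ^ 2 := by
  intro h
  apply nat_three (a.num.natAbs * b.den) (b.num.natAbs * a.den) (a.den * b.den)
    (mul_ne_zero a.den_nz b.den_nz)
  have h3 : ((3 * (a.den * b.den) ^ 2 : ℕ) : ℤ) =
      ((a.num.natAbs * b.den) ^ 2 + (b.num.natAbs * a.den) ^ 2 : ℕ) := by
    push_cast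
    rw [mul_pow |(a.num : ℤ)|, mul_pow |(b.num : ℤ)|, sq_abs, sq_abs]
    have h4 : (3 * ((a.den : ℚ) * b.den) ^ 2) = (a.num : ℚ) ^ 2 * (b.den : ℚ) ^ 2 +
        (b.num : ℚ) ^ 2 * (a.den : ℚ) ^ 2 := by
      have h5 : (a.num : ℚ) = a * a.den := 
        (Rat.mul_den_eq_num a).symm
      have h6 : (b.num : ℚ) = b * b.den := 
        (Rat.mul_den_eq_num b).symm
      rw [h5, h6]
      linear_combination ((a.den : ℚ) * b.den) ^ 2 * h
    exact_mod_cast h4
  exact_mod_cast h3

theorem rat_main : 3 < wInv (RatFunc (RatFunc (RatFunc ℚ))) := by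
  refine main ℚ ?_ 3 (by exact_mod_cast IsSumSq.natCast (R := ℚ) 3) rat_three
  intro h
  have := h.nonneg
  norm_num at this

/-- **There is a field with `w`-invariant greater than three.** `w(ℚ(u,x,z)) > 3`; more generally
`w(k(u,x,z)) > 3` for every field `k` in which `-1` is not a sum of squares and some sum of squares
is not a sum of two squares. -/
theorem result :
    3 < wInv (RatFunc (RatFunc (RatFunc ℚ))) ∧
    ∀ (k : Type u) [Field k], ¬ IsSumSq (-1 : k) →
      (∃ c : k, IsSumSq c ∧ ∀ a b : k, c ≠ a ^ 2 + b ^ 2) →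
      3 < wInv (RatFunc (RatFunc (RatFunc k))) :=
  ⟨rat_main, fun k _ hk ⟨c, hcs, hc⟩ => main k hk c hcs hc⟩

end Pool.Agent.Results.MP_2416ca_nt.WInvariantAboveThree
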